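import Pool.Agent.H47S.X18f3dfCof

namespace Pool.Agent.Results.MP_18f3df_al.QOne

open Pool.Agent.H47.Cof
open Pool.Agent.Results.MP_18f3df_al.Cof

theorem result :
    (∀ (U : Type) [MetricSpace U] [Countable U], RatDist U → Homog U →
      (∀ (Y : Type) [MetricSpace Y] [Finite Y], RatDist Y → ∃ j : Y → U, Isometry j) →
      ¬ FinGen (PolM U) ∧ ¬ CountCof (PolM U)) :=
  parts.1

end Pool.Agent.Results.MP_18f3df_al.QOne
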