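import Pool.Agent.H47S.X18f3dfCof

namespace Pool.Agent.Results.MP_18f3df_al.QTwo

open Pool.Agent.H47.Cof
open Pool.Agent.Results.MP_18f3df_al.Cof

theorem result :
    (∀ (U : Type) [MetricSpace U] [Countable U], RatDist U → (∀ a b : U, dist a b ≤ 1) → Homog U →
      (∀ (Y : Type) [MetricSpace Y] [Finite Y], RatDist Y → (∀ a b : Y, dist a b ≤ 1) →
        ∃ j : Y → U, Isometry j) →
      ¬ FinGen (PolM U) ∧ ¬ CountCof (PolM U)) ∧
    (¬ FinGen PolQ ∧ CountCof PolQ) :=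
  ⟨parts.2.1, parts.2.2⟩

end Pool.Agent.Results.MP_18f3df_al.QTwo
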